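import Pool.Agent.Helper53.Pq.Goals

/-!
# Packet Pq-IID of MP_705522_gt: direct analysis of one large coordinate
-/

namespace Pool.Agent.Helper19.Pq

open MeasureTheory Set
open Pool.Agent.Helper53.Pq

/-! ### Elementary -/

lemma inv_sq_eq {t : ℝ} (ht : 0 < t) : (1 : ℝ) / t ^ 2 = t ^ (-2 : ℝ) := by
  rw [Real.rpow_neg ht.le, one_div]
  congr 1
  exact (Real.rpow_two t).symm

lemma int_inv_sq {c : ℝ} (hc : 0 < c) : IntegrableOn (fun t : ℝ => 1 / t ^ 2) (Ioi c) ∧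
    ∫ t in Ioi c, 1 / t ^ 2 = 1 / c := by
  constructor
  · refine (integrableOn_Ioi_rpow_of_lt (a := -2) (by norm_num) hc).congr_fun ?_
      measurableSet_Ioi
    intro t ht
    exact (inv_sq_eq (hc.trans ht)).symm
  · have h1 : ∫ t in Ioi c, 1 / t ^ 2 = ∫ t in Ioi c, t ^ (-2 : ℝ) :=
      setIntegral_congr_fun measurableSet_Ioi fun t ht => inv_sq_eq (hc.trans ht)
    rw [h1, integral_Ioi_rpow_of_lt (by norm_num) hc]
    norm_num
    rw [Real.rpow_neg_one]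

lemma split_Ioi {f : ℝ → ℝ} {a b : ℝ} (hab : a ≤ b) (hf : IntegrableOn f (Ioi a)) :
    ∫ t in Ioi a, f t = (∫ t in Ioc a b, f t) + ∫ t in Ioi b, f t := by
  rw [← setIntegral_union (Ioc_disjoint_Ioi le_rfl) measurableSet_Ioi
    (hf.mono_set Ioc_subset_Ioi_self) (hf.mono_set (Ioi_subset_Ioi hab)),
    Ioc_union_Ioi_eq_Ioi hab]

lemma int_inv_sq_Ioc {a b : ℝ} (ha : 0 < a) (hab : a ≤ b) :
    ∫ t in Ioc a b, 1 / t ^ 2 = 1 / a - 1 / b := by
  have h := split_Ioi hab (int_inv_sq ha).1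
  rw [(int_inv_sq ha).2, (int_inv_sq (ha.trans_le hab)).2] at h
  linarith

lemma exp_neg_le {Y : ℝ} (hY : 0 ≤ Y) : Real.exp (-Y) ≤ 1 - Y + Y ^ 2 / 2 := by
  have h1 := Real.quadratic_le_exp_of_nonneg hY
  rw [Real.exp_neg, inv_le_comm₀ (Real.exp_pos _) (by nlinarith [sq_nonneg (Y - 1)])]
  refine le_trans ?_ h1
  rw [inv_le_comm₀ (by nlinarith [sq_nonneg (Y - 1)]) (by positivity)]
  rw [inv_le_iff_one_le_mul₀ (by positivity)]
  nlinarith [pow_nonneg hY 4]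

lemma exp_conv {y A : ℝ} (hy0 : 0 ≤ y) (hy1 : y ≤ 1) :
    Real.exp (-(y * A)) ≤ (1 - y) + y * Real.exp (-A) := by
  have h := convexOn_exp.2 (mem_univ 0) (mem_univ (-A)) (sub_nonneg.2 hy1) hy0 (by ring)
  simp only [smul_eq_mul, mul_zero, zero_add, Real.exp_zero, mul_one] at h
  rwa [mul_neg] at h

/-! ### Numerical facts -/

structure Nm (θ : ℝ) : Prop where
  vlo : 0.04 ≤ vv θ
  vhi : vv θ ≤ 0.12
  hlo : 0 < HH θ
  hhi : HH θ < 1
  ca : 0 ≤ cA θ
  ct0 : 0 ≤ ct θ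
  ct1 : ct θ ≤ 0.0833

lemma nm (hN : GNum) {θ : ℝ} (h1 : 1 / 6 ≤ θ) (h2 : θ ≤ 1 / 4) : Nm θ := by
  obtain ⟨a1, a2, -⟩ := hN.1 θ h1 h2
  have v1 : 0.04 ≤ vv θ := by nlinarith
  have v2 : vv θ ≤ 0.12 := by nlinarith
  have c0 : 0 ≤ cA θ := by
    unfold cA
    linarith
  refine ⟨v1, v2, ?_, ?_, c0, ?_, ?_⟩
  · unfold HH
    linarith
  · unfold HH
    linarith
  · unfold ct
    positivity
  · unfold ct cA
    nlinarith [sq_nonneg (vv θ - 0.08267),
      mul_nonneg (show (0 : ℝ) ≤ vv θ + 2 * 0.08267 by linarith) (sq_nonneg (vv θ - 0.08267))]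

/-! ### The first region -/

section

variable {θ : ℝ} {φ : ℝ → ℝ}

lemma meas_e (θ : ℝ) : Measurable fun t : ℝ => Real.exp (-((1 + vv θ) * t ^ 2 / 2)) := by
  fun_prop

/-- The integral of `(1 - φ²)/t²` over `(0, π/2]`. -/
lemma int_sq (hF : Fn θ φ) (hE : IntegrableOn (fun t => φ t ^ 2 / t ^ 2) (Ioi (Real.pi / 2))) :
    ∫ t in Ioc 0 (Real.pi / 2), (1 - φ t ^ 2) / t ^ 2 =
      Real.pi / 2 * (2 : ℝ) ^ θ - 2 / Real.pi + E2 φ := by
  have hpi := Real.pi_pos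
  have h1 := split_Ioi (show (0 : ℝ) ≤ Real.pi / 2 by positivity) hF.int2
  rw [hF.eq2] at h1
  have h2 : ∫ t in Ioi (Real.pi / 2), (1 - φ t ^ 2) / t ^ 2 = 2 / Real.pi - E2 φ := by
    have h3 : ∀ t, (1 - φ t ^ 2) / t ^ 2 = 1 / t ^ 2 - φ t ^ 2 / t ^ 2 := fun t => by ring
    simp only [h3]
    rw [integral_sub (int_inv_sq (by positivity)).1 hE, (int_inv_sq (by positivity)).2]
    unfold E2
    congr 1
    field_simp
  rw [h2] at h1
  linarith

lemma int_G1 (hN : Nm θ) (hF : Fn θ φ)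
    (hQ : IntegrableOn (fun t => (1 - |φ t|) / t ^ 2) (Ioc 0 (Real.pi / 2))) :
    IntegrableOn (fun t => |φ t| * (Real.exp (-((1 + vv θ) * t ^ 2 / 2)) - |φ t|) / t ^ 2)
      (Ioc 0 (Real.pi / 2)) := by
  have hm := hF.meas
  have hc : IntegrableOn (fun _ : ℝ => (1 + vv θ) / 2) (Ioc 0 (Real.pi / 2)) :=
    continuous_const.integrableOn_Ioc
  refine Integrable.mono' (hQ.add hc) ?_ ?_
  · exact (Measurable.aestronglyMeasurable (by fun_prop))
  · refine (ae_restrict_iff' measurableSet_Ioc).2 (Filter.Eventually.of_forall fun t ht => ?_)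
    have ht0 : 0 < t := ht.1
    have hv := hN.vlo
    have h1 : |φ t| ≤ 1 := hF.abs_le t
    have h0 : 0 ≤ |φ t| := abs_nonneg _
    have he1 : Real.exp (-((1 + vv θ) * t ^ 2 / 2)) ≤ 1 := by
      apply Real.exp_le_one_iff.2
      have : 0 ≤ (1 + vv θ) * t ^ 2 / 2 := by positivity
      linarith
    have he2 : 1 - (1 + vv θ) * t ^ 2 / 2 ≤ Real.exp (-((1 + vv θ) * t ^ 2 / 2)) := by
      have := Real.add_one_le_exp (-((1 + vv θ) * t ^ 2 / 2))
      linarith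
    rw [Real.norm_eq_abs, abs_div, abs_mul, abs_abs, abs_of_pos (show 0 < t ^ 2 by positivity)]
    show |φ t| * |(Real.exp (-((1 + vv θ) * t ^ 2 / 2)) - |φ t|)| / t ^ 2 ≤
      (1 - |φ t|) / t ^ 2 + (1 + vv θ) / 2
    have hne : ((1 - |φ t|) / t ^ 2 + (1 + vv θ) / 2) * t ^ 2 =
        (1 - |φ t|) + (1 + vv θ) / 2 * t ^ 2 := by field_simp
    rw [div_le_iff₀ (by positivity), hne]
    have h2 : |(Real.exp (-((1 + vv θ) * t ^ 2 / 2)) - |φ t|)| ≤
        (1 - |φ t|) + (1 + vv θ) / 2 * t ^ 2 := by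
      rw [abs_le]
      constructor <;> nlinarith [Real.exp_pos (-((1 + vv θ) * t ^ 2 / 2))]
    calc |φ t| * |(Real.exp (-((1 + vv θ) * t ^ 2 / 2)) - |φ t|)|
        ≤ 1 * |(Real.exp (-((1 + vv θ) * t ^ 2 / 2)) - |φ t|)| := by gcongr
      _ ≤ _ := by rw [one_mul]; exact h2

lemma int_KK (hN : Nm θ) (hF : Fn θ φ) :
    IntegrableOn (fun t => t ^ 2 * |φ t| * Real.exp (-((1 + vv θ) * t ^ 2 / 2)) *
      (1 - 0.0271 * t ^ 4)) (Ioc 0 (Real.pi / 2)) := by
  have hm := hF.meas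
  have hc : IntegrableOn (fun _ : ℝ => (4 : ℝ)) (Ioc 0 (Real.pi / 2)) :=
    continuous_const.integrableOn_Ioc
  refine Integrable.mono' hc ?_ ?_
  · exact (Measurable.aestronglyMeasurable (by fun_prop))
  · refine (ae_restrict_iff' measurableSet_Ioc).2 (Filter.Eventually.of_forall fun t ht => ?_)
    have ht0 : 0 < t := ht.1
    have ht1 : t ≤ 1.6 := by
      have := Real.pi_lt_d2
      have := ht.2
      linarith
    have hv := hN.vlo
    have h1 : |φ t| ≤ 1 := hF.abs_le t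
    have h0 : 0 ≤ |φ t| := abs_nonneg _
    have he1 : Real.exp (-((1 + vv θ) * t ^ 2 / 2)) ≤ 1 := by
      apply Real.exp_le_one_iff.2
      have : 0 ≤ (1 + vv θ) * t ^ 2 / 2 := by positivity
      linarith
    have he0 := Real.exp_pos (-((1 + vv θ) * t ^ 2 / 2))
    have h4 : t ^ 4 ≤ 1.6 ^ 4 := by gcongr
    have h2 : t ^ 2 ≤ 1.6 ^ 2 := by gcongr
    have h5 : 0 ≤ 1 - 0.0271 * t ^ 4 := by norm_num at h4 ⊢; linarith
    have h6 : 1 - 0.0271 * t ^ 4 ≤ 1 := by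
      have : 0 ≤ t ^ 4 := by positivity
      linarith
    rw [Real.norm_eq_abs, abs_of_nonneg (by positivity)]
    calc t ^ 2 * |φ t| * Real.exp (-((1 + vv θ) * t ^ 2 / 2)) * (1 - 0.0271 * t ^ 4)
        ≤ 1.6 ^ 2 * 1 * 1 * 1 := by gcongr
      _ ≤ 4 := by norm_num

lemma regA (hN : Nm θ) (hF : Fn θ φ)
    (hE : IntegrableOn (fun t => φ t ^ 2 / t ^ 2) (Ioi (Real.pi / 2)))
    (hQ : IntegrableOn (fun t => (1 - |φ t|) / t ^ 2) (Ioc 0 (Real.pi / 2)))
    {y e2 : ℝ} (hy0 : 0 ≤ y) (hy1 : y ≤ 1) (he0 : 0 ≤ e2) (he1 : e2 ≤ 0.65) (P : ℝ → ℝ)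
    (hP : ∀ t, 0 < t → t ≤ Real.pi / 2 →
      |P t| ≤ Real.exp (-(y * ((1 + vv θ) * t ^ 2 / 2)) - ct θ * y ^ 2 * e2 * t ^ 4))
    (hI : IntegrableOn (fun t => (1 - φ t * P t) / t ^ 2) (Ioc 0 (Real.pi / 2))) :
    (1 - y) * (Q0 φ - 2 / Real.pi) +
      y * (Real.pi / 2 * (2 : ℝ) ^ θ - 2 / Real.pi + E2 φ - G1 θ φ) +
      ct θ * y ^ 2 * e2 * KK θ φ ≤ ∫ t in Ioc 0 (Real.pi / 2), (1 - φ t * P t) / t ^ 2 := by
  have i2 : IntegrableOn (fun t => (1 - φ t ^ 2) / t ^ 2) (Ioc 0 (Real.pi / 2)) :=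
    hF.int2.mono_set Ioc_subset_Ioi_self
  have i3 := int_G1 hN hF hQ
  have i4 := int_KK hN hF
  have j1 : IntegrableOn (fun t => (1 - y) * ((1 - |φ t|) / t ^ 2) +
      y * ((1 - φ t ^ 2) / t ^ 2)) (Ioc 0 (Real.pi / 2)) := (hQ.const_mul _).add (i2.const_mul _)
  have j2 : IntegrableOn (fun t => (1 - y) * ((1 - |φ t|) / t ^ 2) +
      y * ((1 - φ t ^ 2) / t ^ 2) -
      y * (|φ t| * (Real.exp (-((1 + vv θ) * t ^ 2 / 2)) - |φ t|) / t ^ 2))
      (Ioc 0 (Real.pi / 2)) := j1.sub (i3.const_mul _)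
  have e1 : ∫ t in Ioc 0 (Real.pi / 2), ((1 - y) * ((1 - |φ t|) / t ^ 2) +
      y * ((1 - φ t ^ 2) / t ^ 2) -
      y * (|φ t| * (Real.exp (-((1 + vv θ) * t ^ 2 / 2)) - |φ t|) / t ^ 2) +
      (ct θ * y ^ 2 * e2) * (t ^ 2 * |φ t| * Real.exp (-((1 + vv θ) * t ^ 2 / 2)) *
      (1 - 0.0271 * t ^ 4))) = (1 - y) * (Q0 φ - 2 / Real.pi) +
      y * (Real.pi / 2 * (2 : ℝ) ^ θ - 2 / Real.pi + E2 φ - G1 θ φ) +
      ct θ * y ^ 2 * e2 * KK θ φ := by
    rw [integral_add j2 (i4.const_mul _), integral_sub j1 (i3.const_mul _),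
      integral_add (hQ.const_mul _) (i2.const_mul _), integral_const_mul, integral_const_mul,
      integral_const_mul, integral_const_mul, int_sq hF hE]
    unfold Q0 G1 KK
    ring
  rw [← e1]
  refine setIntegral_mono_on (j2.add (i4.const_mul _)) hI measurableSet_Ioc fun t ht => ?_
  have ht0 : 0 < t := ht.1
  have ht1 : t ≤ 1.6 := by
    have := Real.pi_lt_d2
    have := ht.2
    linarith
  have hv := hN.vlo
  have h1 : |φ t| ≤ 1 := hF.abs_le t
  have h0 : 0 ≤ |φ t| := abs_nonneg _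
  have hsq : φ t ^ 2 = |φ t| ^ 2 := (sq_abs _).symm
  rw [hsq]
  set f := |φ t| with hf
  set A := (1 + vv θ) * t ^ 2 / 2 with hA
  have hA0 : 0 ≤ A := by positivity
  set E := Real.exp (-A) with hE'
  have hE0 : 0 < E := Real.exp_pos _
  set Y := ct θ * y ^ 2 * e2 * t ^ 4 with hY
  have hct0 := hN.ct0
  have hct1 := hN.ct1
  have hY0 : 0 ≤ Y := by positivity
  have h4 : t ^ 4 ≤ 1.6 ^ 4 := by gcongr
  have h5 : 0 ≤ 1 - 0.0271 * t ^ 4 := by norm_num at h4 ⊢; linarith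
  have hY1 : Y ≤ 0.0542 * t ^ 4 := by
    have : ct θ * y ^ 2 * e2 ≤ 0.0833 * 1 * 0.65 := by
      have : y ^ 2 ≤ 1 := by nlinarith
      gcongr
    have h6 : Y ≤ 0.0833 * 1 * 0.65 * t ^ 4 := by
      rw [hY]
      gcongr
    have : 0 ≤ t ^ 4 := by positivity
    nlinarith
  have hc1 : Real.exp (-(y * A)) ≤ (1 - y) + y * E := exp_conv hy0 hy1
  have hc2 : E ≤ Real.exp (-(y * A)) := by
    apply Real.exp_le_exp.2
    nlinarith
  have hc3 : Real.exp (-(y * A) - Y) ≤ (1 - y) + y * E - E * (Y * (1 - 0.0271 * t ^ 4)) := by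
    have h6 : Real.exp (-(y * A) - Y) = Real.exp (-(y * A)) * Real.exp (-Y) := by
      rw [← Real.exp_add]
      ring_nf
    have h7 : Real.exp (-Y) ≤ 1 - Y * (1 - 0.0271 * t ^ 4) := by
      refine (exp_neg_le hY0).trans ?_
      nlinarith
    have h8 : 0 ≤ Y * (1 - 0.0271 * t ^ 4) := by positivity
    rw [h6]
    calc Real.exp (-(y * A)) * Real.exp (-Y)
        ≤ Real.exp (-(y * A)) * (1 - Y * (1 - 0.0271 * t ^ 4)) := by gcongr
      _ = Real.exp (-(y * A)) - Real.exp (-(y * A)) * (Y * (1 - 0.0271 * t ^ 4)) := by ring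
      _ ≤ (1 - y) + y * E - E * (Y * (1 - 0.0271 * t ^ 4)) := by gcongr
  have hc4 : φ t * P t ≤ f * ((1 - y) + y * E - E * (Y * (1 - 0.0271 * t ^ 4))) := by
    calc φ t * P t ≤ |φ t * P t| := le_abs_self _
      _ = f * |P t| := abs_mul _ _
      _ ≤ f * Real.exp (-(y * A) - Y) := by
          gcongr
          exact hP t ht0 ht.2
      _ ≤ _ := by gcongr
  have ht2 : 0 < t ^ 2 := by positivity
  have hfin : (1 - y) * ((1 - f) / t ^ 2) + y * ((1 - f ^ 2) / t ^ 2) - y * (f * (E - f) / t ^ 2) +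
      ct θ * y ^ 2 * e2 * (t ^ 2 * f * E * (1 - 0.0271 * t ^ 4)) =
      (1 - f * ((1 - y) + y * E - E * (Y * (1 - 0.0271 * t ^ 4)))) / t ^ 2 := by
    rw [hY]
    field_simp
    ring
  rw [hfin]
  gcongr

/-! ### The second region -/

lemma regB (h2 : ∀ t, 1.58 ≤ t → t ≤ 3 → φ t ≤ 0)
    (h3 : ∀ t, Real.pi / 2 ≤ t → t ≤ 1.58 → |φ t| ≤ 0.0185) {T : ℝ} (hT1 : 1.9287 ≤ T)
    (hT2 : T ≤ 3) (P : ℝ → ℝ) (hP0 : ∀ t, 0 < t → t ≤ T → 0 ≤ P t)
    (hP1 : ∀ t, |P t| ≤ 1)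
    (hI : IntegrableOn (fun t => (1 - φ t * P t) / t ^ 2) (Ioi 0)) :
    2 / Real.pi - 1 / T - 0.00007 ≤ ∫ t in Ioc (Real.pi / 2) T, (1 - φ t * P t) / t ^ 2 := by
  have hpi := Real.pi_pos
  have hp1 := Real.pi_gt_d4
  have hp2 := Real.pi_lt_d4
  have hs : ∫ t in Ioc (Real.pi / 2) T, (1 - φ t * P t) / t ^ 2 =
      (∫ t in Ioc (Real.pi / 2) 1.58, (1 - φ t * P t) / t ^ 2) +
      ∫ t in Ioc 1.58 T, (1 - φ t * P t) / t ^ 2 := by
    rw [← setIntegral_union (Ioc_disjoint_Ioc_of_le le_rfl) measurableSet_Ioc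
      (hI.mono_set fun t ht => lt_trans (by positivity) ht.1)
      (hI.mono_set fun t ht => lt_trans (by norm_num) ht.1),
      Ioc_union_Ioc_eq_Ioc (by linarith) (by linarith)]
  rw [hs]
  have i1 : 0.9815 * (1 / (Real.pi / 2) - 1 / 1.58) ≤
      ∫ t in Ioc (Real.pi / 2) 1.58, (1 - φ t * P t) / t ^ 2 := by
    rw [← int_inv_sq_Ioc (by positivity) (by linarith), ← integral_const_mul]
    refine setIntegral_mono_on
      (((int_inv_sq (show 0 < Real.pi / 2 by positivity)).1.mono_set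
        Ioc_subset_Ioi_self).const_mul _)
      (hI.mono_set fun t ht => lt_trans (by positivity) ht.1) measurableSet_Ioc fun t ht => ?_
    have ht0 : 0 < t := lt_trans (by positivity) ht.1
    have h4 : φ t * P t ≤ 0.0185 := by
      calc φ t * P t ≤ |φ t * P t| := le_abs_self _
        _ = |φ t| * |P t| := abs_mul _ _
        _ ≤ 0.0185 * 1 := mul_le_mul (h3 t ht.1.le ht.2) (hP1 t) (abs_nonneg _) (by norm_num)
        _ = 0.0185 := by norm_num
    rw [mul_one_div]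
    gcongr
    linarith
  have i2 : 1 / 1.58 - 1 / T ≤ ∫ t in Ioc 1.58 T, (1 - φ t * P t) / t ^ 2 := by
    rw [← int_inv_sq_Ioc (by norm_num) (by linarith)]
    refine setIntegral_mono_on
      ((int_inv_sq (show (0 : ℝ) < 1.58 by norm_num)).1.mono_set Ioc_subset_Ioi_self)
      (hI.mono_set fun t ht => lt_trans (by norm_num) ht.1) measurableSet_Ioc fun t ht => ?_
    have ht0 : 0 < t := lt_trans (by norm_num) ht.1
    have h4 : φ t * P t ≤ 0 := mul_nonpos_of_nonpos_of_nonneg (h2 t ht.1.le (ht.2.trans hT2))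
      (hP0 t ht0 ht.2)
    gcongr
    linarith
  have h5 : 1 / (Real.pi / 2) = 2 / Real.pi := by field_simp
  rw [h5] at i1
  have h6 : 2 / Real.pi ≤ 0.63665 := by
    rw [div_le_iff₀ hpi]
    nlinarith
  norm_num at i1 i2 h6 ⊢
  linarith

/-! ### The third region -/

lemma meas_term (hF : Fn θ φ) (a w : ℝ) :
    Measurable fun t : ℝ => |φ t| * |φ (a * t)| ^ (1 / w) / t ^ 2 := by
  have hm := hF.meas
  have h1 : Measurable fun t : ℝ => φ (a * t) := hm.comp (by fun_prop)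
  fun_prop

lemma int_term (hF : Fn θ φ) {a w c : ℝ} (hw : 0 < w) (hc : 0 < c) :
    IntegrableOn (fun t : ℝ => |φ t| * |φ (a * t)| ^ (1 / w) / t ^ 2) (Ioi c) := by
  refine Integrable.mono' (int_inv_sq hc).1 (meas_term hF a w).aestronglyMeasurable ?_
  refine (ae_restrict_iff' measurableSet_Ioi).2 (Filter.Eventually.of_forall fun t ht => ?_)
  have ht0 : 0 < t := hc.trans ht
  have h1 := hF.abs_le t
  have h2 := hF.abs_le (a * t)
  have h3 : |φ (a * t)| ^ (1 / w) ≤ 1 :=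
    Real.rpow_le_one (abs_nonneg _) h2 (by positivity)
  rw [Real.norm_eq_abs, abs_of_nonneg (by positivity)]
  gcongr
  exact mul_le_one₀ h1 (by positivity) h3

lemma gam_scale {y w b : ℝ} (hy : 0 < y) (hw : 0 < w) (hwl : w ≤ 0.65) :
    ∫ t in Ioc (1.9287 / √y) (Real.pi / (2 * √(y * w))), Real.exp (-(y * (b * t ^ 2 / 2))) / t ^ 2 =
      √y * Gam b w := by
  have hsy : 0 < √y := Real.sqrt_pos.2 hy
  have hsw : 0 < √w := Real.sqrt_pos.2 hw
  have hp1 := Real.pi_gt_d4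
  have hsw1 : √w ≤ 0.8063 := by
    rw [Real.sqrt_le_left (by norm_num)]
    norm_num at hwl ⊢
    linarith
  have hle : 1.9287 ≤ Real.pi / (2 * √w) := by
    rw [le_div_iff₀ (by positivity)]
    nlinarith
  have hle2 : 1.9287 / √y ≤ Real.pi / (2 * √(y * w)) := by
    rw [Real.sqrt_mul hy.le, show Real.pi / (2 * (√y * √w)) = Real.pi / (2 * √w) / √y by
      field_simp]
    gcongr
  unfold Gam
  rw [← intervalIntegral.integral_of_le hle, ← intervalIntegral.integral_of_le hle2]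
  have h1 := intervalIntegral.integral_comp_mul_left
    (fun s : ℝ => Real.exp (-(b * s ^ 2 / 2)) / s ^ 2) (a := 1.9287 / √y)
    (b := Real.pi / (2 * √(y * w))) hsy.ne'
  have h2 : √y * (1.9287 / √y) = 1.9287 := by field_simp
  have h3 : √y * (Real.pi / (2 * √(y * w))) = Real.pi / (2 * √w) := by
    rw [Real.sqrt_mul hy.le]
    field_simp
  rw [h2, h3, smul_eq_mul] at h1
  have h4 : ∫ t in (1.9287 / √y)..(Real.pi / (2 * √(y * w))),
      Real.exp (-(y * (b * t ^ 2 / 2))) / t ^ 2 =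
      ∫ t in (1.9287 / √y)..(Real.pi / (2 * √(y * w))),
      y * (Real.exp (-(b * (√y * t) ^ 2 / 2)) / (√y * t) ^ 2) := by
    congr 1
    funext t
    rw [mul_pow, Real.sq_sqrt hy.le]
    have : b * (y * t ^ 2) / 2 = y * (b * t ^ 2 / 2) := by ring
    rw [this]
    rcases eq_or_ne t 0 with rfl | ht
    · simp
    · field_simp
  rw [h4, intervalIntegral.integral_const_mul, h1, ← mul_assoc]
  congr 1
  rw [← div_eq_mul_inv, div_eq_iff hsy.ne', Real.mul_self_sqrt hy.le]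

lemma E2_scale {a : ℝ} (ha : 0 < a)
    (hE : IntegrableOn (fun t => φ t ^ 2 / t ^ 2) (Ioi (Real.pi / 2))) :
    IntegrableOn (fun t => φ (a * t) ^ 2 / t ^ 2) (Ioi (Real.pi / (2 * a))) ∧
    ∫ t in Ioi (Real.pi / (2 * a)), φ (a * t) ^ 2 / t ^ 2 = a * E2 φ := by
  have h1 : a * (Real.pi / (2 * a)) = Real.pi / 2 := by field_simp
  have h2 : ∀ t : ℝ, φ (a * t) ^ 2 / t ^ 2 = a ^ 2 * (φ (a * t) ^ 2 / (a * t) ^ 2) := by
    intro t
    rcases eq_or_ne t 0 with rfl | ht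
    · simp
    · field_simp
  constructor
  · simp only [h2]
    refine Integrable.const_mul ?_ _
    refine (integrableOn_Ioi_comp_mul_left_iff (fun t => φ t ^ 2 / t ^ 2) _ ha).2 ?_
    rwa [h1]
  · simp only [h2]
    rw [integral_const_mul, integral_comp_mul_left_Ioi (fun t => φ t ^ 2 / t ^ 2) _ ha, h1,
      smul_eq_mul]
    unfold E2
    field_simp

/-- The tail of one term. -/
lemma term_tail (hN : Nm θ) (hF : Fn θ φ)
    (hH : ∀ t, Real.pi / 2 ≤ t → |φ t| ≤ HH θ)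
    (hE : IntegrableOn (fun t => φ t ^ 2 / t ^ 2) (Ioi (Real.pi / 2))) {y w : ℝ} (hy : 0 < y)
    (hy1 : y ≤ 1) (hw : 0 < w) (hwl : w ≤ 0.65) :
    ∫ t in Ioi (Real.pi / (2 * √(y * w))), |φ t| * |φ (√(y * w) * t)| ^ (1 / w) / t ^ 2 ≤
      TT2 θ y w * E2 φ := by
  have hpi := Real.pi_pos
  set a := √(y * w) with ha'
  have ha : 0 < a := Real.sqrt_pos.2 (by positivity)
  have ha1 : a ≤ 1 := by
    rw [ha']
    exact Real.sqrt_le_iff.2 ⟨zero_le_one, by nlinarith⟩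
  obtain ⟨s1, s2⟩ := E2_scale (φ := φ) ha hE
  have hH0 := hN.hlo
  have hH1 := hN.hhi
  have hbnd : Real.pi / 2 ≤ Real.pi / (2 * a) := by
    apply div_le_div_of_nonneg_left hpi.le (by positivity)
    linarith
  have hin : 0 < Real.pi / (2 * a) := by positivity
  unfold TT2
  split_ifs with hc
  · -- `w ≤ 1/2`
    have h1 : √(y * w) * HH θ ^ (1 / w - 1) * E2 φ =
        ∫ t in Ioi (Real.pi / (2 * a)), HH θ ^ (1 / w - 1) * (φ (a * t) ^ 2 / t ^ 2) := by
      rw [integral_const_mul, s2]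
      ring
    rw [h1]
    refine setIntegral_mono_on (int_term hF hw hin) (s1.const_mul _) measurableSet_Ioi
      fun t ht => ?_
    have ht0 : 0 < t := hin.trans ht
    have hat : Real.pi / 2 ≤ a * t := by
      have := mul_lt_mul_of_pos_left (mem_Ioi.1 ht) ha
      rw [show a * (Real.pi / (2 * a)) = Real.pi / 2 by field_simp] at this
      exact this.le
    have h2 : |φ t| ≤ HH θ := hH t (hbnd.trans (mem_Ioi.1 ht).le)
    have h3 : |φ (a * t)| ≤ HH θ := hH _ hat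
    have h4 : |φ (a * t)| ^ (1 / w) ≤ HH θ ^ (1 / w - 2) * φ (a * t) ^ 2 := by
      have h5 : (0 : ℝ) ≤ 1 / w - 2 := by
        rw [sub_nonneg, le_div_iff₀ hw]
        linarith
      rw [← sq_abs, ← Real.rpow_two]
      calc |φ (a * t)| ^ (1 / w) = |φ (a * t)| ^ ((1 / w - 2) + 2) := by ring_nf
        _ = |φ (a * t)| ^ (1 / w - 2) * |φ (a * t)| ^ (2 : ℝ) :=
            Real.rpow_add_of_nonneg (abs_nonneg _) h5 (by norm_num)
        _ ≤ HH θ ^ (1 / w - 2) * |φ (a * t)| ^ (2 : ℝ) := by gcongr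
    have h6 : |φ t| * |φ (a * t)| ^ (1 / w) ≤ HH θ ^ (1 / w - 1) * φ (a * t) ^ 2 := by
      calc |φ t| * |φ (a * t)| ^ (1 / w)
          ≤ HH θ * (HH θ ^ (1 / w - 2) * φ (a * t) ^ 2) := by gcongr
        _ = HH θ ^ (1 / w - 1) * φ (a * t) ^ 2 := by
          rw [← mul_assoc]
          congr 1
          rw [show 1 / w - 1 = 1 + (1 / w - 2) by ring, Real.rpow_add hH0, Real.rpow_one]
    rw [← mul_div_assoc]
    gcongr
  · -- `w > 1/2`
    push Not at hc
    set β := 1 / (2 * w) with hβ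
    have hβ0 : 0 < β := by positivity
    have hβ1 : β < 1 := by
      rw [hβ, div_lt_one (by positivity)]
      linarith
    have h1w : 1 / w = 2 * β := by
      rw [hβ]
      field_simp
    have hexp : (y * w) ^ (1 / (4 * w)) = a ^ β := by
      rw [ha', Real.sqrt_eq_rpow, ← Real.rpow_mul (by positivity)]
      congr 1
      rw [hβ]
      field_simp
      norm_num
    rw [hexp]
    have i0 : IntegrableOn (fun t => φ t ^ 2 / t ^ 2) (Ioi (Real.pi / (2 * a))) :=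
      hE.mono_set (Ioi_subset_Ioi hbnd)
    have hnn : ∫ t in Ioi (Real.pi / (2 * a)), φ t ^ 2 / t ^ 2 ≤ E2 φ := by
      unfold E2
      exact setIntegral_mono_set hE (Filter.Eventually.of_forall fun t => by positivity)
        (Ioi_subset_Ioi hbnd).eventuallyLE
    have h1 : ∫ t in Ioi (Real.pi / (2 * a)), (HH θ ^ (1 / w - 1) * a ^ β) *
        ((1 - β) * (φ t ^ 2 / t ^ 2) + β / a * (φ (a * t) ^ 2 / t ^ 2)) ≤
        a ^ β * HH θ ^ (1 / w - 1) * E2 φ := by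
      rw [integral_const_mul, integral_add (i0.const_mul _) (s1.const_mul _), integral_const_mul,
        integral_const_mul, s2]
      have h2 : β / a * (a * E2 φ) = β * E2 φ := by field_simp
      rw [h2]
      have h3 : (1 - β) * (∫ t in Ioi (Real.pi / (2 * a)), φ t ^ 2 / t ^ 2) ≤ (1 - β) * E2 φ :=
        mul_le_mul_of_nonneg_left hnn (by linarith)
      have h4 : 0 ≤ HH θ ^ (1 / w - 1) * a ^ β := by positivity
      calc HH θ ^ (1 / w - 1) * a ^ β * ((1 - β) * (∫ t in Ioi (Real.pi / (2 * a)),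
            φ t ^ 2 / t ^ 2) + β * E2 φ)
          ≤ HH θ ^ (1 / w - 1) * a ^ β * ((1 - β) * E2 φ + β * E2 φ) := by
            apply mul_le_mul_of_nonneg_left _ h4
            linarith
        _ = _ := by ring
    refine le_trans ?_ h1
    refine setIntegral_mono_on (int_term hF hw hin)
      (((i0.const_mul _).add (s1.const_mul _)).const_mul _) measurableSet_Ioi fun t ht => ?_
    have ht0 : 0 < t := hin.trans ht
    have h2 : |φ t| ≤ HH θ := hH t (hbnd.trans (mem_Ioi.1 ht).le)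
    have hexp0 : 0 ≤ 1 / w - 1 := by
      rw [sub_nonneg, le_div_iff₀ hw]
      linarith
    have h3 : |φ t| ≤ HH θ ^ (1 / w - 1) * (φ t ^ 2) ^ (1 - β) := by
      rw [← sq_abs, ← Real.rpow_two, ← Real.rpow_mul (abs_nonneg _)]
      calc |φ t| = |φ t| ^ (1 : ℝ) := (Real.rpow_one _).symm
        _ = |φ t| ^ ((1 / w - 1) + 2 * (1 - β)) := by
            congr 1
            rw [h1w]
            ring
        _ = |φ t| ^ (1 / w - 1) * |φ t| ^ (2 * (1 - β)) :=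
            Real.rpow_add_of_nonneg (abs_nonneg _) hexp0 (by linarith)
        _ ≤ HH θ ^ (1 / w - 1) * |φ t| ^ (2 * (1 - β)) := by gcongr
    have h4 : |φ (a * t)| ^ (1 / w) = a ^ β * (φ (a * t) ^ 2 / a) ^ β := by
      rw [← Real.mul_rpow ha.le (by positivity), mul_div_cancel₀ _ ha.ne', ← sq_abs,
        ← Real.rpow_two, ← Real.rpow_mul (abs_nonneg _), h1w]
    have h5 := Real.geom_mean_le_arith_mean2_weighted (w₁ := 1 - β) (w₂ := β) (p₁ := φ t ^ 2)
      (p₂ := φ (a * t) ^ 2 / a) (by linarith) hβ0.le (by positivity) (by positivity) (by ring)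
    have h6 : |φ t| * |φ (a * t)| ^ (1 / w) ≤ HH θ ^ (1 / w - 1) * a ^ β *
        ((1 - β) * φ t ^ 2 + β * (φ (a * t) ^ 2 / a)) := by
      rw [h4]
      calc |φ t| * (a ^ β * (φ (a * t) ^ 2 / a) ^ β)
          ≤ (HH θ ^ (1 / w - 1) * (φ t ^ 2) ^ (1 - β)) *
            (a ^ β * (φ (a * t) ^ 2 / a) ^ β) := by gcongr
        _ = HH θ ^ (1 / w - 1) * a ^ β * ((φ t ^ 2) ^ (1 - β) * (φ (a * t) ^ 2 / a) ^ β) := by
            ring
        _ ≤ _ := by gcongr
    have h7 : (HH θ ^ (1 / w - 1) * a ^ β) *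
        ((1 - β) * (φ t ^ 2 / t ^ 2) + β / a * (φ (a * t) ^ 2 / t ^ 2)) =
        HH θ ^ (1 / w - 1) * a ^ β * ((1 - β) * φ t ^ 2 + β * (φ (a * t) ^ 2 / a)) / t ^ 2 := by
      field_simp
    rw [h7]
    gcongr

/-- One term of the weighted sum. -/
lemma term_all (hN : Nm θ) (hF : Fn θ φ) (hA : ∀ t, 0 ≤ t → t ≤ Real.pi / 2 →
      |φ t| ≤ Real.exp (-((1 + vv θ) * t ^ 2 / 2) - cA θ * ((1 + vv θ) * t ^ 2 / 2) ^ 2))
    (hH : ∀ t, Real.pi / 2 ≤ t → |φ t| ≤ HH θ)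
    (hE : IntegrableOn (fun t => φ t ^ 2 / t ^ 2) (Ioi (Real.pi / 2))) {y w : ℝ} (hy : 0 < y)
    (hy1 : y ≤ 1) (hw : 0 < w) (hwl : w ≤ 0.65) :
    ∫ t in Ioi (1.9287 / √y), |φ t| * |φ (√(y * w) * t)| ^ (1 / w) / t ^ 2 ≤
      √y * HH θ * Gam (1 + vv θ) w + TT2 θ y w * E2 φ := by
  have hsy : 0 < √y := Real.sqrt_pos.2 hy
  have hsw : 0 < √w := Real.sqrt_pos.2 hw
  have hp1 := Real.pi_gt_d4
  have hp2 := Real.pi_lt_d4
  have hv := hN.vlo
  have hH0 := hN.hlo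
  have hsw1 : √w ≤ 0.8063 := by
    rw [Real.sqrt_le_left (by norm_num)]
    norm_num at hwl ⊢
    linarith
  have hsy1 : √y ≤ 1 := Real.sqrt_le_iff.2 ⟨zero_le_one, by nlinarith⟩
  have hle : 1.9287 ≤ Real.pi / (2 * √w) := by
    rw [le_div_iff₀ (by positivity)]
    nlinarith
  have hle2 : 1.9287 / √y ≤ Real.pi / (2 * √(y * w)) := by
    rw [Real.sqrt_mul hy.le, show Real.pi / (2 * (√y * √w)) = Real.pi / (2 * √w) / √y by
      field_simp]
    gcongr
  have hT : 0 < 1.9287 / √y := by positivity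
  have hT2 : Real.pi / 2 ≤ 1.9287 / √y := by
    rw [le_div_iff₀ hsy]
    nlinarith
  rw [split_Ioi hle2 (int_term hF hw hT)]
  refine add_le_add ?_ (term_tail hN hF hH hE hy hy1 hw hwl)
  have hg := gam_scale (b := 1 + vv θ) hy hw hwl
  have h1 : √y * HH θ * Gam (1 + vv θ) w = ∫ t in Ioc (1.9287 / √y) (Real.pi / (2 * √(y * w))),
      HH θ * (Real.exp (-(y * ((1 + vv θ) * t ^ 2 / 2))) / t ^ 2) := by
    rw [integral_const_mul, hg]
    ring
  rw [h1]
  have hint : IntegrableOn (fun t => Real.exp (-(y * ((1 + vv θ) * t ^ 2 / 2))) / t ^ 2)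
      (Ioc (1.9287 / √y) (Real.pi / (2 * √(y * w)))) := by
    refine Integrable.mono' ((int_inv_sq hT).1.mono_set Ioc_subset_Ioi_self)
      (Measurable.aestronglyMeasurable (by fun_prop)) ?_
    refine (ae_restrict_iff' measurableSet_Ioc).2 (Filter.Eventually.of_forall fun t ht => ?_)
    rw [Real.norm_eq_abs, abs_of_nonneg (by positivity)]
    have he1 : Real.exp (-(y * ((1 + vv θ) * t ^ 2 / 2))) ≤ 1 := by
      apply Real.exp_le_one_iff.2
      have : 0 ≤ y * ((1 + vv θ) * t ^ 2 / 2) := by positivity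
      linarith
    gcongr
  refine setIntegral_mono_on ((int_term hF hw hT).mono_set Ioc_subset_Ioi_self)
    (hint.const_mul _) measurableSet_Ioc fun t ht => ?_
  have ht0 : 0 < t := hT.trans ht.1
  set a := √(y * w) with ha'
  have ha : 0 < a := Real.sqrt_pos.2 (by positivity)
  have hat : a * t ≤ Real.pi / 2 := by
    have := mul_le_mul_of_nonneg_left ht.2 ha.le
    rwa [show a * (Real.pi / (2 * a)) = Real.pi / 2 by field_simp] at this
  have h2 : |φ t| ≤ HH θ := hH t (hT2.trans ht.1.le)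
  have h3 : |φ (a * t)| ≤ Real.exp (-((1 + vv θ) * (a * t) ^ 2 / 2)) := by
    refine (hA (a * t) (by positivity) hat).trans (Real.exp_le_exp.2 ?_)
    have : 0 ≤ cA θ * ((1 + vv θ) * (a * t) ^ 2 / 2) ^ 2 := mul_nonneg hN.ca (by positivity)
    linarith
  have h4 : |φ (a * t)| ^ (1 / w) ≤ Real.exp (-(y * ((1 + vv θ) * t ^ 2 / 2))) := by
    calc |φ (a * t)| ^ (1 / w) ≤ Real.exp (-((1 + vv θ) * (a * t) ^ 2 / 2)) ^ (1 / w) := by
          gcongr
      _ = Real.exp (-((1 + vv θ) * (a * t) ^ 2 / 2) * (1 / w)) := (Real.exp_mul _ _).symm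
      _ = Real.exp (-(y * ((1 + vv θ) * t ^ 2 / 2))) := by
          congr 1
          rw [mul_pow, ha', Real.sq_sqrt (by positivity)]
          field_simp
  rw [← mul_div_assoc]
  gcongr

end

/-! ### The theorem -/

theorem gIIdir : GIIdir := by
  intro hNum hA1 hH hE2 hQ θ φ hF ι S u x hx hx1 hx2 hsum hu hy4 hint
  classical
  obtain ⟨hEi, -, -⟩ := hE2 hNum θ φ hF
  obtain ⟨hQi, -, -, -⟩ := hQ hNum θ φ hF
  obtain ⟨H1, H2, H3, H4⟩ := hH hNum θ φ hF
  have hA := hA1 θ φ hF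
  have hN := nm hNum hF.lo hF.hi
  have hpi := Real.pi_pos
  have hp1 := Real.pi_gt_d4
  have hp2 := Real.pi_lt_d4
  have hv := hN.vlo
  have hr : 0 < 1 - x ^ 2 := by linarith
  set r2 := 1 - x ^ 2 with hr2
  have hxx : 0 < x ^ 2 := by positivity
  have hy0 : 0 < r2 / x ^ 2 := by positivity
  have hy1 : r2 / x ^ 2 ≤ 1 := by
    rw [div_le_one hxx]
    linarith
  set y := r2 / x ^ 2 with hy
  have hu0 : ∀ i ∈ S, 0 < u i := fun i hi => (hu i hi).1
  set w : ι → ℝ := fun i => u i ^ 2 / r2 with hw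
  have hw0 : ∀ i ∈ S, 0 < w i := fun i hi => by
    have := hu0 i hi
    show 0 < u i ^ 2 / r2
    positivity
  have hwl : ∀ i ∈ S, w i ≤ 0.65 := fun i hi => by
    show u i ^ 2 / r2 ≤ 0.65
    rw [div_le_iff₀ hr]
    exact (hu i hi).2
  have hwsum : ∑ i ∈ S, w i = 1 := by
    show ∑ i ∈ S, u i ^ 2 / r2 = 1
    rw [← Finset.sum_div, div_eq_one_iff_eq hr.ne']
    linarith
  have ha2 : ∀ i, (u i / x) ^ 2 = y * w i := by
    intro i
    show (u i / x) ^ 2 = r2 / x ^ 2 * (u i ^ 2 / r2)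
    field_simp
  have haw : ∀ i ∈ S, u i / x = √(y * w i) := by
    intro i hi
    rw [← ha2, Real.sqrt_sq]
    have := hu0 i hi
    positivity
  -- change of variables
  set P : ℝ → ℝ := fun t => ∏ i ∈ S, φ (u i / x * t) with hP
  have hcv : ∀ t, (1 - φ (x * t) * ∏ i ∈ S, φ (u i * t)) / t ^ 2 =
      x ^ 2 * ((1 - φ (x * t) * P (x * t)) / (x * t) ^ 2) := by
    intro t
    have h1 : P (x * t) = ∏ i ∈ S, φ (u i * t) := by
      show ∏ i ∈ S, φ (u i / x * (x * t)) = _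
      refine Finset.prod_congr rfl fun i _ => ?_
      congr 1
      field_simp
    rw [h1]
    rcases eq_or_ne t 0 with rfl | ht
    · simp
    · field_simp
  have hFi : IntegrableOn (fun t => (1 - φ t * P t) / t ^ 2) (Ioi 0) := by
    have h1 : IntegrableOn (fun t => (1 - φ (x * t) * P (x * t)) / (x * t) ^ 2) (Ioi 0) := by
      have h2 := hint.const_mul (x ^ 2)⁻¹
      refine h2.congr (Filter.Eventually.of_forall fun t => ?_)
      show (x ^ 2)⁻¹ * ((1 - φ (x * t) * ∏ i ∈ S, φ (u i * t)) / t ^ 2) = _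
      rw [hcv, inv_mul_cancel_left₀ hxx.ne']
    have h2 := (integrableOn_Ioi_comp_mul_left_iff (fun t => (1 - φ t * P t) / t ^ 2) 0 hx).1 h1
    rwa [mul_zero] at h2
  have hFv : x⁻¹ * ∫ t in Ioi (0 : ℝ), (1 - φ (x * t) * ∏ i ∈ S, φ (u i * t)) / t ^ 2 =
      ∫ t in Ioi (0 : ℝ), (1 - φ t * P t) / t ^ 2 := by
    simp only [hcv]
    rw [integral_const_mul, integral_comp_mul_left_Ioi (fun t => (1 - φ t * P t) / t ^ 2) 0 hx,
      mul_zero, smul_eq_mul]
    field_simp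
  rw [hFv]
  -- the regions
  have hsy : 0 < √y := Real.sqrt_pos.2 hy0
  have hsy1 : √y ≤ 1 := Real.sqrt_le_iff.2 ⟨zero_le_one, by linarith⟩
  have hsy2 : 0.6431 ≤ √y := by
    apply Real.le_sqrt_of_sq_le
    norm_num at hy4 ⊢
    linarith
  set T := 1.9287 / √y with hT
  have hT1 : 1.9287 ≤ T := by
    rw [hT, le_div_iff₀ hsy]
    nlinarith
  have hT3 : T ≤ 3 := by
    rw [hT, div_le_iff₀ hsy]
    nlinarith
  have hT0 : 0 < T := by linarith
  have hsmall : ∀ i ∈ S, ∀ t, 0 ≤ t → t ≤ T → u i / x * t ≤ 1.555 := by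
    intro i hi t ht0 ht
    rw [haw i hi]
    calc √(y * w i) * t ≤ √(y * w i) * T := by gcongr
      _ = √(w i) * 1.9287 := by
          rw [hT, Real.sqrt_mul hy0.le]
          field_simp
      _ ≤ 0.80623 * 1.9287 := by
          have : √(w i) ≤ 0.80623 := by
            rw [Real.sqrt_le_left (by norm_num)]
            have := hwl i hi
            norm_num at this ⊢
            linarith
          gcongr
      _ ≤ 1.555 := by norm_num
  have hP0 : ∀ t, 0 < t → t ≤ T → 0 ≤ P t := by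
    intro t ht0 ht
    refine Finset.prod_nonneg fun i hi => H2 _ ?_ (hsmall i hi t ht0.le ht)
    have := hu0 i hi
    positivity
  have hP1 : ∀ t, |P t| ≤ 1 := by
    intro t
    show |∏ i ∈ S, φ (u i / x * t)| ≤ 1
    rw [Finset.abs_prod]
    exact Finset.prod_le_one (fun i _ => abs_nonneg _) fun i _ => hF.abs_le _
  have he0 : 0 ≤ ∑ i ∈ S, w i ^ 2 := Finset.sum_nonneg fun i _ => sq_nonneg _
  have he1 : ∑ i ∈ S, w i ^ 2 ≤ 0.65 := by
    calc ∑ i ∈ S, w i ^ 2 ≤ ∑ i ∈ S, 0.65 * w i := Finset.sum_le_sum fun i hi => by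
          have := hw0 i hi
          have := hwl i hi
          nlinarith
      _ = 0.65 := by rw [← Finset.mul_sum, hwsum, mul_one]
  have hPA : ∀ t, 0 < t → t ≤ Real.pi / 2 →
      |P t| ≤ Real.exp (-(y * ((1 + vv θ) * t ^ 2 / 2)) - ct θ * y ^ 2 * (∑ i ∈ S, w i ^ 2) *
        t ^ 4) := by
    intro t ht0 ht
    show |∏ i ∈ S, φ (u i / x * t)| ≤ _
    rw [Finset.abs_prod]
    have h1 : ∀ i ∈ S, |φ (u i / x * t)| ≤ Real.exp (-(y * ((1 + vv θ) * t ^ 2 / 2)) * w i -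
        ct θ * y ^ 2 * t ^ 4 * w i ^ 2) := by
      intro i hi
      have hs := hsmall i hi t ht0.le (by linarith)
      have := hu0 i hi
      refine (hA (u i / x * t) (by positivity) (by linarith)).trans (le_of_eq ?_)
      rw [mul_pow, ha2]
      congr 1
      unfold ct
      ring
    calc ∏ i ∈ S, |φ (u i / x * t)| ≤ ∏ i ∈ S, Real.exp (-(y * ((1 + vv θ) * t ^ 2 / 2)) * w i -
          ct θ * y ^ 2 * t ^ 4 * w i ^ 2) :=
          Finset.prod_le_prod (fun i _ => abs_nonneg _) h1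
      _ = Real.exp (∑ i ∈ S, (-(y * ((1 + vv θ) * t ^ 2 / 2)) * w i -
          ct θ * y ^ 2 * t ^ 4 * w i ^ 2)) := (Real.exp_sum _ _).symm
      _ = _ := by
          rw [Finset.sum_sub_distrib, ← Finset.mul_sum, ← Finset.mul_sum, hwsum, mul_one]
          congr 1
          ring
  have hrA := regA hN hF hEi hQi hy0.le hy1 he0 he1 P hPA (hFi.mono_set Ioc_subset_Ioi_self)
  have hrB := regB H3 H4 hT1 hT3 P hP0 hP1 hFi
  -- the tail
  have hterm : ∀ i ∈ S, ∫ t in Ioi T, |φ t| * |φ (u i / x * t)| ^ (1 / w i) / t ^ 2 ≤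
      √y * HH θ * Gam (1 + vv θ) (w i) + TT2 θ y (w i) * E2 φ := by
    intro i hi
    rw [haw i hi]
    exact term_all hN hF hA H1 hEi hy0 hy1 (hw0 i hi) (hwl i hi)
  have hrC : 1 / T - ∑ i ∈ S, w i * (√y * HH θ * Gam (1 + vv θ) (w i) + TT2 θ y (w i) * E2 φ) ≤
      ∫ t in Ioi T, (1 - φ t * P t) / t ^ 2 := by
    have hti : ∀ i ∈ S, IntegrableOn (fun t => w i *
        (|φ t| * |φ (u i / x * t)| ^ (1 / w i) / t ^ 2)) (Ioi T) := fun i hi =>
      (int_term hF (hw0 i hi) hT0).const_mul _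
    have h1 : ∫ t in Ioi T, (1 / t ^ 2 - ∑ i ∈ S, w i *
        (|φ t| * |φ (u i / x * t)| ^ (1 / w i) / t ^ 2)) =
        1 / T - ∑ i ∈ S, w i * ∫ t in Ioi T, |φ t| * |φ (u i / x * t)| ^ (1 / w i) / t ^ 2 := by
      rw [integral_sub (int_inv_sq hT0).1 (integrable_finsetSum _ hti), (int_inv_sq hT0).2,
        integral_finsetSum _ hti]
      congr 1
      exact Finset.sum_congr rfl fun i _ => integral_const_mul _ _
    have h2 : 1 / T - ∑ i ∈ S, w i * (√y * HH θ * Gam (1 + vv θ) (w i) + TT2 θ y (w i) * E2 φ) ≤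
        1 / T - ∑ i ∈ S, w i * ∫ t in Ioi T, |φ t| * |φ (u i / x * t)| ^ (1 / w i) / t ^ 2 := by
      refine sub_le_sub_left (Finset.sum_le_sum fun i hi => ?_) _
      exact mul_le_mul_of_nonneg_left (hterm i hi) (hw0 i hi).le
    refine h2.trans ?_
    rw [← h1]
    refine setIntegral_mono_on ((int_inv_sq hT0).1.sub (integrable_finsetSum _ hti))
      (hFi.mono_set (Ioi_subset_Ioi hT0.le)) measurableSet_Ioi fun t ht => ?_
    have ht0 : 0 < t := hT0.trans ht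
    have h3 : |P t| ≤ ∑ i ∈ S, w i * |φ (u i / x * t)| ^ (1 / w i) := by
      show |∏ i ∈ S, φ (u i / x * t)| ≤ _
      rw [Finset.abs_prod]
      refine le_trans (le_of_eq (Finset.prod_congr rfl fun i hi => ?_))
        (Real.geom_mean_le_arith_mean_weighted S w (fun i => |φ (u i / x * t)| ^ (1 / w i))
          (fun i hi => (hw0 i hi).le) hwsum fun i _ => by positivity)
      rw [← Real.rpow_mul (abs_nonneg _), one_div, inv_mul_cancel₀ (hw0 i hi).ne', Real.rpow_one]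
    have h4 : φ t * P t ≤ ∑ i ∈ S, w i * (|φ t| * |φ (u i / x * t)| ^ (1 / w i)) := by
      calc φ t * P t ≤ |φ t * P t| := le_abs_self _
        _ = |φ t| * |P t| := abs_mul _ _
        _ ≤ |φ t| * ∑ i ∈ S, w i * |φ (u i / x * t)| ^ (1 / w i) := by gcongr
        _ = _ := by
            rw [Finset.mul_sum]
            exact Finset.sum_congr rfl fun i _ => by ring
    have h5 : 1 / t ^ 2 - ∑ i ∈ S, w i * (|φ t| * |φ (u i / x * t)| ^ (1 / w i) / t ^ 2) =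
        (1 - ∑ i ∈ S, w i * (|φ t| * |φ (u i / x * t)| ^ (1 / w i))) / t ^ 2 := by
      rw [sub_div, Finset.sum_div]
      congr 1
      exact Finset.sum_congr rfl fun i _ => by ring
    show 1 / t ^ 2 - ∑ i ∈ S, w i * (|φ t| * |φ (u i / x * t)| ^ (1 / w i) / t ^ 2) ≤ _
    rw [h5]
    gcongr
  -- total
  have hsp1 := split_Ioi (show (0 : ℝ) ≤ Real.pi / 2 by positivity) hFi
  have hsp2 := split_Ioi (show Real.pi / 2 ≤ T by linarith)
    (hFi.mono_set (Ioi_subset_Ioi (show (0 : ℝ) ≤ Real.pi / 2 by positivity)))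
  rw [hsp1, hsp2]
  have hlhs : ∑ i ∈ S, w i * ((1 - y) * Q0 φ +
      y * (Real.pi / 2 * (2 : ℝ) ^ θ + E2 φ - G1 θ φ) + ct θ * y ^ 2 * KK θ φ * w i - 0.00007 -
      √y * HH θ * Gam (1 + vv θ) (w i) - TT2 θ y (w i) * E2 φ) =
      (1 - y) * Q0 φ + y * (Real.pi / 2 * (2 : ℝ) ^ θ + E2 φ - G1 θ φ) - 0.00007 +
      ct θ * y ^ 2 * (∑ i ∈ S, w i ^ 2) * KK θ φ -
      ∑ i ∈ S, w i * (√y * HH θ * Gam (1 + vv θ) (w i) + TT2 θ y (w i) * E2 φ) := by
    have h1 : ∀ i ∈ S, w i * ((1 - y) * Q0 φ +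
      y * (Real.pi / 2 * (2 : ℝ) ^ θ + E2 φ - G1 θ φ) + ct θ * y ^ 2 * KK θ φ * w i - 0.00007 -
      √y * HH θ * Gam (1 + vv θ) (w i) - TT2 θ y (w i) * E2 φ) =
      ((1 - y) * Q0 φ + y * (Real.pi / 2 * (2 : ℝ) ^ θ + E2 φ - G1 θ φ) - 0.00007) * w i +
      ct θ * y ^ 2 * KK θ φ * w i ^ 2 -
      w i * (√y * HH θ * Gam (1 + vv θ) (w i) + TT2 θ y (w i) * E2 φ) := fun i _ => by ring
    rw [Finset.sum_congr rfl h1, Finset.sum_sub_distrib, Finset.sum_add_distrib,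
      ← Finset.mul_sum, ← Finset.mul_sum, hwsum]
    ring
  show ∑ i ∈ S, w i * ((1 - y) * Q0 φ +
      y * (Real.pi / 2 * (2 : ℝ) ^ θ + E2 φ - G1 θ φ) + ct θ * y ^ 2 * KK θ φ * w i - 0.00007 -
      √y * HH θ * Gam (1 + vv θ) (w i) - TT2 θ y (w i) * E2 φ) ≤ _
  rw [hlhs]
  have hring : (1 - y) * (Q0 φ - 2 / Real.pi) +
      y * (Real.pi / 2 * (2 : ℝ) ^ θ - 2 / Real.pi + E2 φ - G1 θ φ) =
      (1 - y) * Q0 φ + y * (Real.pi / 2 * (2 : ℝ) ^ θ + E2 φ - G1 θ φ) - 2 / Real.pi := by ring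
  linarith

end Pool.Agent.Helper19.Pq
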